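import Pool.Agent.KDS.StmtsB

/-!
# Row INS of squad KDS: independence of the columns
-/

set_option autoImplicit false

namespace Pool.Agent.KDS.H3

open Polynomial NumberField H58Q Pool.Agent.SZT Pool.Agent.KDT

/-! ### homogeneity -/

theorem MT_smul {K : Type} [Field K] (f : K[X]) (a c : K) (u : Fin 4 → K) :
    MT f a (c • u) = c • MT f a u := by
  funext i
  fin_cases i <;> simp [MT] <;> ring

theorem dup_smul {K : Type} [Field K] (f : K[X]) (c : K) (u : Fin 4 → K) :
    dup f (c • u) = c ^ 4 • dup f u := by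
  funext i
  fin_cases i
  · show dup0 f (c • u) = c ^ 4 * dup0 f u
    unfold dup0
    simp only [Pi.smul_apply, smul_eq_mul]
    ring
  · show dup1 f (c • u) = c ^ 4 * dup1 f u
    unfold dup1
    simp only [Pi.smul_apply, smul_eq_mul]
    ring
  · show dup2 f (c • u) = c ^ 4 * dup2 f u
    unfold dup2
    simp only [Pi.smul_apply, smul_eq_mul]
    ring
  · show dup3 f (c • u) = c ^ 4 * dup3 f u
    unfold dup3
    simp only [Pi.smul_apply, smul_eq_mul]
    ring

theorem dpw_smul {K : Type} [Field K] (f : K[X]) (a : ℕ) : ∀ (c : K) (u : Fin 4 → K),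
    dpw f a (c • u) = c ^ (4 ^ a) • dpw f a u := by
  induction a with
  | zero =>
    intro c u
    show c • u = c ^ (4 ^ 0) • u
    rw [pow_zero, pow_one]
  | succ a ih =>
    intro c u
    show dpw f a (dup f (c • u)) = c ^ (4 ^ (a + 1)) • dpw f a (dup f u)
    rw [dup_smul, ih, ← pow_mul, ← pow_succ']

theorem mon_smul' {K : Type} [Field K] (e : Fin 4 → ℕ) (c : K) (u : Fin 4 → K) :
    mon e (c • u) = c ^ (e 0 + e 1 + e 2 + e 3) * mon e u := by
  unfold mon
  rw [Fin.prod_univ_four, Fin.prod_univ_four]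
  simp only [Pi.smul_apply, smul_eq_mul, mul_pow, pow_add]
  ring

theorem mon_smul {K : Type} [Field K] (e : Ex 2) (c : K) (u : Fin 4 → K) :
    mon e.1 (c • u) = c ^ 2 * mon e.1 u := by
  rw [mon_smul', (Finset.mem_filter.1 e.2).2.1]

theorem PQ_smul {K : Type} [Field K] (f : K[X]) (i : ℕ) (q : QI i) (c : K) (u : Fin 4 → K) :
    PQ f i q (c • u) = (∏ a : Fin i, (c ^ (4 ^ (a : ℕ))) ^ 2) * PQ f i q u := by
  unfold PQ
  rw [← Finset.prod_mul_distrib]
  refine Finset.prod_congr rfl fun a _ => ?_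
  rw [dpw_smul, mon_smul]

theorem PQ_cons {K : Type} [Field K] (f : K[X]) (i : ℕ) (e : Ex 2) (q : QI i) (u : Fin 4 → K) :
    PQ f (i + 1) (Fin.cons e q) u = mon e.1 u * PQ f i q (dup f u) := by
  unfold PQ
  rw [Fin.prod_univ_succ]
  rfl

theorem tau_smul {K : Type} [Field K] (f : K[X]) (a b c : K) (u : Fin 4 → K) :
    tau f a b (c • u) = c * tau f a b u := by
  unfold tau
  simp only [Pi.smul_apply, smul_eq_mul]
  ring

/-! ### the class of a translated half -/

theorem cls {R : Type} [CommRing R] [IsDomain R] {M' P T R1 R2 : Ideal R} {h t a2 a b : R}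
    (h0 : h ≠ 0) (ht : t ≠ 0) (h2 : a2 ≠ 0) (ha : a ≠ 0) (hb : b ≠ 0)
    (e1 : P * T * R1 = Ideal.span {h}) (e2 : T * T = Ideal.span {t})
    (e3 : R2 * R1 = Ideal.span {a2}) (e4 : Ideal.span {a} * M' = Ideal.span {b} * P ^ 2) :
    SameCl M' (R2 ^ 2) := by
  refine ⟨a * (t * (a2 * a2)), b * (h * h), mul_ne_zero ha (mul_ne_zero ht (mul_ne_zero h2 h2)),
    mul_ne_zero hb (mul_ne_zero h0 h0), ?_⟩
  rw [← Ideal.span_singleton_mul_span_singleton, ← Ideal.span_singleton_mul_span_singleton,
    ← Ideal.span_singleton_mul_span_singleton, ← Ideal.span_singleton_mul_span_singleton b,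
    ← Ideal.span_singleton_mul_span_singleton h, ← e1, ← e2, ← e3]
  calc Ideal.span {a} * (T * T * (R2 * R1 * (R2 * R1))) * M' =
      (Ideal.span {a} * M') * (T * T * (R2 * R1 * (R2 * R1))) := by ring
    _ = Ideal.span {b} * P ^ 2 * (T * T * (R2 * R1 * (R2 * R1))) := by rw [e4]
    _ = Ideal.span {b} * (P * T * R1 * (P * T * R1)) * R2 ^ 2 := by ring

/-! ### roots -/

theorem exists_theta {E : Type} [Field E] [IsAlgClosed E] (g : E[X]) (hg : g.natDegree = 5)
    (hs : g.Separable) : ∃ θ : Fin 5 → E, Function.Injective θ ∧ ∀ k, g.IsRoot (θ k) := by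
  classical
  have hcard : g.roots.toFinset.card = 5 := by
    rw [Multiset.toFinset_card_of_nodup (nodup_roots hs), IsAlgClosed.card_roots_eq_natDegree, hg]
  refine ⟨fun k => ((g.roots.toFinset.equivFinOfCardEq hcard).symm k).1, ?_, ?_⟩
  · intro a b h
    exact (g.roots.toFinset.equivFinOfCardEq hcard).symm.injective (Subtype.ext h)
  · intro k
    have h := ((g.roots.toFinset.equivFinOfCardEq hcard).symm k).2
    rw [Multiset.mem_toFinset] at h
    exact (mem_roots'.1 h).2

/-! ### the halves -/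

theorem halves (tku : TkuStatement) (hlf : HlfStatement) (trl : TrlStatement)
    (mii : MiiStatement) {K E : Type} [Field K] [CharZero K] [Field E] [Algebra K E]
    [IsAlgClosed E] (f : K[X]) (hf : f.Monic) (h5 : f.natDegree = 5) (hsq : Squarefree f)
    (h2 : (2 : E) ≠ 0) (hgs : Squarefree (f.map (algebraMap K E)))
    (θ : Fin 5 → E) (hθ : ∀ k, (f.map (algebraMap K E)).IsRoot (θ k))
    (A' B' A B : E[X]) (hM' : Mum (f.map (algebraMap K E)) A' B') (hd' : A'.natDegree = 2)
    (hG' : Gnc K A') (hG : Good (f.map (algebraMap K E)) A B) (hGn : Gnc K A)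
    (hcl : SameCl (MI (f.map (algebraMap K E)) A' B') (MI (f.map (algebraMap K E)) A B ^ 2)) :
    ∀ l : List (Fin 5), ∃ (Al Bl : E[X]) (lam : E), Good (f.map (algebraMap K E)) Al Bl ∧
      Gnc K Al ∧
      SameCl (MI (f.map (algebraMap K E)) A' B') (MI (f.map (algebraMap K E)) Al Bl ^ 2) ∧
      lam ≠ 0 ∧ kum (f.map (algebraMap K E)) Al Bl =
        lam • l.foldr (fun k v => MT (f.map (algebraMap K E)) (θ k) v)
          (kum (f.map (algebraMap K E)) A B) := by
  set g := f.map (algebraMap K E) with hg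
  have hgm : g.Monic := hf.map _
  have hg5 : g.natDegree = 5 := by
    rw [hg, hf.natDegree_map]
    exact h5
  have hdom : IsDomain (Q E g) := isDomain (g := 2) (by rw [hg5])
  intro l
  induction l with
  | nil =>
    refine ⟨A, B, 1, hG, hGn, hcl, one_ne_zero, ?_⟩
    rw [one_smul]
    rfl
  | cons k l ih =>
    obtain ⟨Al, Bl, lam, hGl, hGnl, hcll, hlam, hkum⟩ := ih
    have hev : Al.eval (θ k) ≠ 0 := by
      intro h0
      have h1 : IsUnit (X - C (θ k)) :=
        hGl.cop.isUnit_of_dvd' (dvd_iff_isRoot.mpr h0) (dvd_iff_isRoot.mpr (hθ k))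
      exact not_isUnit_X_sub_C (θ k) h1
    obtain ⟨A₁, B₁, V, hT⟩ := trl E g Al Bl (θ k) h2 hgm hg5 hgs hGl.toMum hGl.two (hθ k) hev
    have hku := tku E g Al Bl A₁ B₁ V (θ k) h2 hgm hg5 hGl.toMum hGl.two (hθ k) hev hT
    have hcl1 : SameCl (MI g A' B') (MI g A₁ B₁ ^ 2) := by
      obtain ⟨a, b, ha, hb, e4⟩ := hcll
      have e2 := mii E g (X - C (θ k)) 0 h2 hgs (by
        rw [zero_pow two_ne_zero, zero_sub, dvd_neg]
        exact dvd_iff_isRoot.mpr (hθ k))
      rw [neg_zero] at e2
      have e3 := mii E g A₁ B₁ h2 hgs hT.mum.dvd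
      refine cls (h := (⟨-V, 1⟩ : Q E g)) (t := (⟨X - C (θ k), 0⟩ : Q E g))
        (a2 := (⟨A₁, 0⟩ : Q E g)) ?_ ?_ ?_ ha hb hT.idl e2 e3 e4
      · intro h0
        exact one_ne_zero (congrArg QuadraticAlgebra.im h0)
      · intro h0
        exact X_sub_C_ne_zero (θ k) (congrArg QuadraticAlgebra.re h0)
      · intro h0
        exact hT.mum.monic.ne_zero (congrArg QuadraticAlgebra.re h0)
    obtain ⟨hG1, hGn1⟩ := hlf K E f A' B' A₁ B₁ hf h5 hsq hM' hd' hG' hT.mum hT.two.le hcl1
    refine ⟨A₁, B₁, (Al.eval (θ k))⁻¹ * lam, hG1, hGn1, hcl1,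
      mul_ne_zero (inv_ne_zero hev) hlam, ?_⟩
    show kum g A₁ B₁ = ((Al.eval (θ k))⁻¹ * lam) •
      MT g (θ k) (l.foldr (fun k v => MT g (θ k) v) (kum g A B))
    rw [hkum, MT_smul] at hku
    rw [mul_smul, ← hku, smul_smul, inv_mul_cancel₀ hev, one_smul]

/-! ### the step -/

theorem step (qtd : QtdStatement) (tku : TkuStatement) (clf : ClfStatement) (div : DivStatement)
    (hlf : HlfStatement) (gen : GenStatement) (dpb : DpbStatement) (trl : TrlStatement)
    (kqu : KquStatement) (mii : MiiStatement) {K E : Type} [Field K] [CharZero K] [Field E]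
    [Algebra K E] [IsAlgClosed E] (f : K[X]) (hf : f.Monic) (h5 : f.natDegree = 5)
    (hsq : Squarefree f) (hsp : f.Splits) (i : ℕ) (c : QI (i + 1) → K)
    (H : ∀ A B : E[X], Mum (f.map (algebraMap K E)) A B → A.natDegree = 2 → Gnc K A →
      ∑ q, algebraMap K E (c q) * PQ (f.map (algebraMap K E)) (i + 1) q
        (kum (f.map (algebraMap K E)) A B) = 0) (e : Ex 2)
    (A' B' : E[X]) (hM' : Mum (f.map (algebraMap K E)) A' B') (hd' : A'.natDegree = 2)
    (hG' : Gnc K A') :
    ∑ q : QI i, algebraMap K E (c (Fin.cons e q)) * PQ (f.map (algebraMap K E)) i q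
      (kum (f.map (algebraMap K E)) A' B') = 0 := by
  have h0 : CharZero E := charZero_of_injective_algebraMap (algebraMap K E).injective
  have h2 : (2 : E) ≠ 0 := two_ne_zero
  have hsep : (f.map (algebraMap K E)).Separable :=
    (PerfectField.separable_iff_squarefree.2 hsq).map
  have hgs : Squarefree (f.map (algebraMap K E)) := hsep.squarefree
  have hgm : (f.map (algebraMap K E)).Monic := hf.map _
  have hg5 : (f.map (algebraMap K E)).natDegree = 5 := by
    rw [hf.natDegree_map]
    exact h5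
  obtain ⟨θ, hθi, hθ⟩ := exists_theta (f.map (algebraMap K E)) hg5 hsep
  obtain ⟨A, B, hM, hd, hcl⟩ := div E (f.map (algebraMap K E)) A' B' h2 hgm hg5 hgs hM' hd'.le
  obtain ⟨hG, hGn⟩ := hlf K E f A' B' A B hf h5 hsq hM' hd' hG' hM hd hcl
  have hal := halves tku hlf trl mii f hf h5 hsq h2 hgs θ hθ A' B' A B hM' hd' hG' hG hGn hcl
  obtain ⟨_, _, htau⟩ := (gen K f hf h5 hsq hsp).2 E A' B' hM' hd' hG'
  set g := f.map (algebraMap K E) with hg
  have hqu : quart g (kum g A B) = 0 := kqu.1 E g A B hgm hg5 hM hG.two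
  have hdup : ∀ (Al Bl : E[X]), Good g Al Bl → SameCl (MI g A' B') (MI g Al Bl ^ 2) →
      ∃ d : E, d ≠ 0 ∧ dup g (kum g Al Bl) = d • kum g A' B' := by
    intro Al Bl hGl hcll
    obtain ⟨_, _, _, _, _, hne, hall⟩ := dpb E g Al Bl A' B' h2 hgm hg5 hgs hGl hM' hd' hcll
    exact ⟨_, hne, funext hall⟩
  -- the quadrics do not vanish
  have hQQ : ∀ a b, a < b → QQ g (θ a) (θ b) (kum g A B) ≠ 0 := by
    intro a b hab h
    have hne : θ a ≠ θ b := fun h' => (ne_of_lt hab) (hθi h')
    have h1 := qtd E g (θ a) (θ b) (kum g A B) hgm hg5 (hθ a) (hθ b) hne hqu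
    obtain ⟨d, hd0, hdd⟩ := hdup A B hG hcl
    rw [h, hdd, tau_smul, zero_pow two_ne_zero] at h1
    exact mul_ne_zero (pow_ne_zero 2 (sub_ne_zero.2 hne))
      (mul_ne_zero hd0 (htau (θ a) (θ b) (hθ a) (hθ b) hne)) h1.symm
  have hkey := clf E g θ (kum g A B) h2 hgm hg5 hθi hθ hQQ
    (fun e => ∑ q : QI i, algebraMap K E (c (Fin.cons e q)) * PQ g i q (kum g A' B')) (by
      intro l
      obtain ⟨Al, Bl, lam, hGl, hGnl, hcll, hlam, hkum⟩ := hal l
      obtain ⟨d, hd0, hdd⟩ := hdup Al Bl hGl hcll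
      have h1 := H Al Bl hGl.toMum hGl.two hGnl
      rw [← (Fin.consEquiv (fun _ : Fin (i + 1) => Ex 2)).sum_comp, Fintype.sum_prod_type] at h1
      have h3 : ∀ e : Ex 2, ∑ q : QI i, algebraMap K E (c (Fin.cons e q)) *
          PQ g (i + 1) (Fin.cons e q) (kum g Al Bl) =
          (lam ^ 2 * ∏ a : Fin i, (d ^ (4 ^ (a : ℕ))) ^ 2) *
          ((∑ q : QI i, algebraMap K E (c (Fin.cons e q)) * PQ g i q (kum g A' B')) *
          mon e.1 (l.foldr (fun k v => MT g (θ k) v) (kum g A B))) := by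
        intro e
        rw [Finset.sum_mul, Finset.mul_sum]
        refine Finset.sum_congr rfl fun q _ => ?_
        rw [PQ_cons, hdd, PQ_smul, hkum, mon_smul]
        ring
      have h4 : (lam ^ 2 * ∏ a : Fin i, (d ^ (4 ^ (a : ℕ))) ^ 2) *
          ∑ e : Ex 2, ((∑ q : QI i, algebraMap K E (c (Fin.cons e q)) *
            PQ g i q (kum g A' B')) *
          mon e.1 (l.foldr (fun k v => MT g (θ k) v) (kum g A B))) = 0 := by
        rw [Finset.mul_sum, ← h1]
        refine Finset.sum_congr rfl fun e _ => ?_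
        exact (h3 e).symm
      refine (mul_eq_zero.1 h4).resolve_left (mul_ne_zero (pow_ne_zero 2 hlam) ?_)
      exact Finset.prod_ne_zero_iff.2 fun a _ => pow_ne_zero 2 (pow_ne_zero _ hd0))
  exact congrFun hkey e

/-! ### the claim -/

theorem claim (qtd : QtdStatement) (tku : TkuStatement) (clf : ClfStatement) (div : DivStatement)
    (hlf : HlfStatement) (gen : GenStatement) (dpb : DpbStatement) (trl : TrlStatement)
    (kqu : KquStatement) (mii : MiiStatement) {K E : Type} [Field K] [CharZero K] [Field E]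
    [Algebra K E] [IsAlgClosed E] (f : K[X]) (hf : f.Monic) (h5 : f.natDegree = 5)
    (hsq : Squarefree f) (hsp : f.Splits)
    (hex : ∃ A B : E[X], Mum (f.map (algebraMap K E)) A B ∧ A.natDegree = 2 ∧ Gnc K A) (i : ℕ) :
    ∀ c : QI i → K,
    (∀ A B : E[X], Mum (f.map (algebraMap K E)) A B → A.natDegree = 2 → Gnc K A →
      ∑ q, algebraMap K E (c q) * PQ (f.map (algebraMap K E)) i q
        (kum (f.map (algebraMap K E)) A B) = 0) → c = 0 := by
  induction i with
  | zero =>
    intro c H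
    obtain ⟨A, B, hM, hd, hG⟩ := hex
    have h := H A B hM hd hG
    rw [Fintype.sum_unique] at h
    have h1 : PQ (f.map (algebraMap K E)) 0 default (kum (f.map (algebraMap K E)) A B) = 1 := by
      unfold PQ
      exact Finset.prod_of_isEmpty _
    rw [h1, mul_one, map_eq_zero] at h
    funext q
    rw [Unique.eq_default q]
    exact h
  | succ i ih =>
    intro c H
    funext q
    have h := ih (fun q' => c (Fin.cons (q 0) q')) (fun A' B' hM' hd' hG' =>
      step qtd tku clf div hlf gen dpb trl kqu mii f hf h5 hsq hsp i c H (q 0) A' B' hM' hd' hG')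
    have h1 := congrFun h (Fin.tail q)
    have h2 : (Fin.cons (q 0) (Fin.tail q) : QI (i + 1)) = q := Fin.cons_self_tail q
    simp only [h2] at h1
    exact h1

theorem ins (_clm : ClmStatement) (qtd : QtdStatement) (tku : TkuStatement) (clf : ClfStatement)
    (div : DivStatement) (hlf : HlfStatement) (gen : GenStatement) (dpb : DpbStatement)
    (trl : TrlStatement) (kqu : KquStatement) (mii : MiiStatement) : InsStatement := by
  intro K _ _ f i c hf h5 hsq hc
  have hinj : Function.Injective (algebraMap K (AlgebraicClosure K)) := RingHom.injective _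
  have h0 : CharZero (AlgebraicClosure K) := charZero_of_injective_ringHom hinj
  have hf' : (f.map (algebraMap K (AlgebraicClosure K))).Monic := hf.map _
  have h5' : (f.map (algebraMap K (AlgebraicClosure K))).natDegree = 5 := by
    rw [hf.natDegree_map]
    exact h5
  have hsq' : Squarefree (f.map (algebraMap K (AlgebraicClosure K))) :=
    ((PerfectField.separable_iff_squarefree.2 hsq).map).squarefree
  have hsp' : (f.map (algebraMap K (AlgebraicClosure K))).Splits := IsAlgClosed.splits _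
  obtain ⟨E, iE, iA, iC, A₀, B₀, hM₀, hd₀, hG₀⟩ :=
    (gen (AlgebraicClosure K) (f.map (algebraMap K (AlgebraicClosure K))) hf' h5' hsq' hsp').1
  by_contra hno
  push Not at hno
  have hz := claim qtd tku clf div hlf gen dpb trl kqu mii
    (f.map (algebraMap K (AlgebraicClosure K))) hf' h5' hsq' hsp' ⟨A₀, B₀, hM₀, hd₀, hG₀⟩ i
    (fun q => algebraMap K (AlgebraicClosure K) (c q)) (by
      intro A B hM hd hG
      obtain ⟨_, hne, _⟩ := (gen (AlgebraicClosure K) (f.map (algebraMap K (AlgebraicClosure K)))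
        hf' h5' hsq' hsp').2 E A B hM hd hG
      have h := hno E iE ((algebraMap (AlgebraicClosure K) E).comp
        (algebraMap K (AlgebraicClosure K))) A B (by
          rw [← Polynomial.map_map]
          exact hM) hd hne
      rw [← Polynomial.map_map] at h
      exact h)
  refine hc (funext fun q => ?_)
  have h := congrFun hz q
  exact (map_eq_zero_iff _ hinj).1 h

end Pool.Agent.KDS.H3
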